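import Pool.Agent.H.MP_e5edb0_lc.E

namespace Pool.Agent.Results.MP_e5edb0_lc.Poly

open Pool.Agent.Lib.CX Pool.Agent.H.MP_e5edb0_lc

theorem result : (InP fun a : Gr => Equi a.G) ∧ InNP fun a : Gr => Equi a.G := ⟨inP, inP.inNP⟩

end Pool.Agent.Results.MP_e5edb0_lc.Poly
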